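import Pool.Agent.Run7.h567.GO.Iface

/-!
# Project GO, piece CONT: the conditions are closed
-/

set_option autoImplicit false

namespace Run7.h930.GO.CONT

open Run7.h567.GO Matrix Polynomial

theorem t_CONT : S_CONT := by
  intro Γ _ E _ _ _ n m ρ σ hρ hσ
  have h1 : ∀ g, aeval (ρ g) (σ g).charpoly =
      ∑ i ∈ Finset.range (m + 1), (σ g).charpoly.coeff i • (ρ g) ^ i := by
    intro g
    apply Polynomial.aeval_eq_sum_range'
    rw [Matrix.charpoly_natDegree_eq_dim, Fintype.card_fin]
    exact Nat.lt_succ_self m
  have h2 : ∀ i, Continuous fun g => (σ g).charpoly.coeff i := by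
    intro i
    have h3 : ∀ g, (σ g).charpoly.coeff i =
        MvPolynomial.eval (fun p : Fin m × Fin m => σ g p.1 p.2)
          ((Matrix.charpoly.univ E (Fin m)).coeff i) := by
      intro g
      have h4 := Matrix.charpoly.univ_coeff_eval₂Hom (n := Fin m) (RingHom.id E)
        (fun p : Fin m × Fin m => σ g p.1 p.2) i
      exact h4.symm
    simp only [h3]
    apply (MvPolynomial.continuous_eval _).comp
    exact continuous_pi fun p => hσ.matrix_elem p.1 p.2
  simp only [h1]
  exact continuous_finsetSum _ fun i _ => (h2 i).smul (hρ.pow i)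

end Run7.h930.GO.CONT
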