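import Pool.Agent.Run7.h567.GO.Iface

/-!
# Project GO, piece FIB: the entries of `ρ` are in the algebra of `σ`
-/

set_option autoImplicit false

namespace Run7.h930.GO.FIB

open Run7.h567.GO Matrix Polynomial

section

variable {Γ : Type} [Group Γ] {E : Type} [Field E]

lemma ent_mem {n : ℕ} (ρ : MRep Γ E n) (i j : Fin n) : ent ρ i j ∈ coefAlg ρ :=
  Algebra.subset_adjoin (Or.inl ⟨(i, j), rfl⟩)

lemma ent'_mem {n : ℕ} (ρ : MRep Γ E n) (i j : Fin n) : ent' ρ i j ∈ coefAlg ρ :=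
  Algebra.subset_adjoin (Or.inr ⟨(i, j), rfl⟩)

/-- the algebra is stable under right translations -/
lemma trans_mem {m : ℕ} (σ : MRep Γ E m) (x : Γ) (f : Γ → E) (hf : f ∈ coefAlg σ) :
    (fun g => f (g * x)) ∈ coefAlg σ := by
  refine Algebra.adjoin_induction (p := fun f _ => (fun g => f (g * x)) ∈ coefAlg σ)
    ?_ ?_ ?_ ?_ hf
  · rintro _ (⟨⟨i, j⟩, rfl⟩ | ⟨⟨i, j⟩, rfl⟩)
    · have h : (fun g => ent σ i j (g * x)) = ∑ k, (σ x k j) • ent σ i k := by
        funext g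
        simp only [ent, map_mul, Matrix.mul_apply, Finset.sum_apply, Pi.smul_apply, smul_eq_mul]
        exact Finset.sum_congr rfl fun k _ => mul_comm _ _
      show (fun g => ent σ i j (g * x)) ∈ coefAlg σ
      rw [h]
      exact sum_mem fun k _ => (coefAlg σ).smul_mem (ent_mem σ i k) _
    · have h : (fun g => ent' σ i j (g * x)) = ∑ k, (σ x⁻¹ i k) • ent' σ k j := by
        funext g
        simp only [ent', _root_.mul_inv_rev, map_mul, Matrix.mul_apply, Finset.sum_apply,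
          Pi.smul_apply, smul_eq_mul]
      show (fun g => ent' σ i j (g * x)) ∈ coefAlg σ
      rw [h]
      exact sum_mem fun k _ => (coefAlg σ).smul_mem (ent'_mem σ k j) _
  · intro r
    exact (coefAlg σ).algebraMap_mem r
  · intro f f' _ _ h1 h2
    exact (coefAlg σ).add_mem h1 h2
  · intro f f' _ _ h1 h2
    exact (coefAlg σ).mul_mem h1 h2

lemma fg {m : ℕ} (σ : MRep Γ E m) : (coefAlg σ).FG := by
  refine ⟨(Set.toFinite (Set.range (fun p : Fin m × Fin m => ent σ p.1 p.2) ∪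
    Set.range (fun p : Fin m × Fin m => ent' σ p.1 p.2))).toFinset, ?_⟩
  rw [Set.Finite.coe_toFinset]
  rfl

lemma fg_big {n m : ℕ} (ρ : MRep Γ E n) (σ : MRep Γ E m) : (bigAlg ρ σ).FG := (fg ρ).sup (fg σ)

/-- the zero ideal has a point over it -/
lemma exists_point {R : Type} [CommRing R] [Algebra E R] [IsAlgClosed E] [Algebra.FiniteType E R]
    (I : Ideal R) (hI : I ≠ ⊤) : ∃ φ : R →ₐ[E] E, ∀ s ∈ I, φ s = 0 := by
  obtain ⟨M, hM, hIM⟩ := Ideal.exists_le_maximal I hI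
  letI : Field (R ⧸ M) := Ideal.Quotient.field M
  have h1 : Algebra.FiniteType E (R ⧸ M) := inferInstance
  have h2 : Module.Finite E (R ⧸ M) := finite_of_finite_type_of_isJacobsonRing E (R ⧸ M)
  have h3 : Function.Bijective (algebraMap E (R ⧸ M)) :=
    IsAlgClosed.algebraMap_bijective_of_isIntegral
  let e : E ≃ₐ[E] (R ⧸ M) := AlgEquiv.ofBijective (Algebra.ofId E (R ⧸ M)) h3
  refine ⟨(e.symm : (R ⧸ M) →ₐ[E] E).comp (Ideal.Quotient.mkₐ E M), fun s hs => ?_⟩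
  show e.symm (Ideal.Quotient.mk M s) = 0
  rw [Ideal.Quotient.eq_zero_iff_mem.mpr (hIM hs), map_zero]

/-- the ideal of the denominators -/
def den {n m : ℕ} (ρ : MRep Γ E n) (σ : MRep Γ E m) : Ideal (coefAlg σ) where
  carrier := {s | ∀ i j, s.1 * ent ρ i j ∈ coefAlg σ}
  add_mem' := by
    intro a b ha hb i j
    have h : (a + b).1 * ent ρ i j = a.1 * ent ρ i j + b.1 * ent ρ i j := add_mul _ _ _
    rw [h]
    exact (coefAlg σ).add_mem (ha i j) (hb i j)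
  zero_mem' := by
    intro i j
    have h : (0 : coefAlg σ).1 * ent ρ i j = 0 := zero_mul _
    rw [h]
    exact (coefAlg σ).zero_mem
  smul_mem' := by
    intro c a ha i j
    have h : (c • a).1 * ent ρ i j = c.1 * (a.1 * ent ρ i j) := mul_assoc _ _ _
    rw [h]
    exact (coefAlg σ).mul_mem c.2 (ha i j)

lemma mem_den {n m : ℕ} {ρ : MRep Γ E n} {σ : MRep Γ E m} {s : coefAlg σ} :
    s ∈ den ρ σ ↔ ∀ i j, s.1 * ent ρ i j ∈ coefAlg σ := Iff.rfl

lemma den_trans {n m : ℕ} (ρ : MRep Γ E n) (σ : MRep Γ E m) (s : coefAlg σ) (hs : s ∈ den ρ σ)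
    (x : Γ) (t : coefAlg σ) (ht : ∀ g, t.1 g = s.1 (g * x)) : t ∈ den ρ σ := by
  intro i j
  have h : t.1 * ent ρ i j = ∑ k, (ρ x⁻¹ k j) • (fun g => (s.1 * ent ρ i k) (g * x)) := by
    funext g
    have h1 : ρ g = ρ (g * x) * ρ x⁻¹ := by
      rw [← map_mul, mul_inv_cancel_right]
    have h2 : ρ g i j = ∑ k, ρ (g * x) i k * ρ x⁻¹ k j := by
      conv_lhs => rw [h1]
      rw [Matrix.mul_apply]
    simp only [Pi.mul_apply, Finset.sum_apply, Pi.smul_apply, smul_eq_mul, ent, ht]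
    rw [h2, Finset.mul_sum]
    exact Finset.sum_congr rfl fun k _ => by ring
  rw [h]
  exact sum_mem fun k _ => (coefAlg σ).smul_mem (trans_mem σ x _ (hs i k)) _

end

/-- the two points coincide -/
lemma point_unique (hPT : S_PT) {Γ : Type} [Group Γ] {E : Type} [Field E] {n m : ℕ}
    (ρ : MRep Γ E n) (σ : MRep Γ E m) (h1 : ∀ x, Pt ρ σ x 1 → x = 1)
    (φ ψ : bigAlg ρ σ →ₐ[E] E)
    (h : ∀ (f : Γ → E) (hf : f ∈ bigAlg ρ σ), f ∈ coefAlg σ → φ ⟨f, hf⟩ = ψ ⟨f, hf⟩)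
    (i j : Fin n) (hij : ent ρ i j ∈ bigAlg ρ σ) : φ ⟨_, hij⟩ = ψ ⟨_, hij⟩ := by
  obtain ⟨_, hmul, hinv⟩ := hPT Γ E n m ρ σ
  have hl : ∀ i j, ent ρ i j ∈ bigAlg ρ σ := fun i j =>
    (le_sup_left : coefAlg ρ ≤ bigAlg ρ σ) (ent_mem ρ i j)
  have hr : ∀ i j, ent σ i j ∈ bigAlg ρ σ := fun i j =>
    (le_sup_right : coefAlg σ ≤ bigAlg ρ σ) (ent_mem σ i j)
  let x : Matrix (Fin n) (Fin n) E := Matrix.of fun i j => φ ⟨_, hl i j⟩
  let x' : Matrix (Fin n) (Fin n) E := Matrix.of fun i j => ψ ⟨_, hl i j⟩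
  let y : Matrix (Fin m) (Fin m) E := Matrix.of fun i j => φ ⟨_, hr i j⟩
  have p1 : Pt ρ σ x y := ⟨φ, fun i j _ => rfl, fun i j _ => rfl⟩
  have p2 : Pt ρ σ x' y := ⟨ψ, fun i j _ => rfl, fun i j hh => (h _ hh (ent_mem σ i j)).symm⟩
  obtain ⟨z, w, hz, hw, p3⟩ := hinv x y p1
  have p4 := hmul _ _ _ _ p3 p2
  rw [mul_eq_one_comm.mp hw] at p4
  have h2 := h1 _ p4
  have h3 : x = x' := by
    calc x = x * (z * x') := by rw [h2, mul_one]
      _ = (x * z) * x' := (mul_assoc _ _ _).symm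
      _ = x' := by rw [hz, one_mul]
  exact congrFun (congrFun h3 i) j

theorem t_FIB : S_PT → S_RING → S_LAM → S_FIB := by
  intro hPT hRING hLAM Γ _ E _ _ _ n m ρ σ h1
  classical
  let R := coefAlg σ
  let A := bigAlg ρ σ
  have hRA : R ≤ A := le_sup_right
  letI : Algebra R A := (Subalgebra.inclusion hRA).toRingHom.toAlgebra
  haveI : IsScalarTower E R A := IsScalarTower.of_algebraMap_eq fun r => rfl
  haveI : Algebra.FiniteType E R := (Subalgebra.fg_iff_finiteType _).mp (fg σ)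
  haveI : Algebra.FiniteType E A := (Subalgebra.fg_iff_finiteType _).mp (fg_big ρ σ)
  haveI : IsReduced R := isReduced_of_injective R.subtype Subtype.val_injective
  haveI : IsReduced A := isReduced_of_injective A.subtype Subtype.val_injective
  have hinj : Function.Injective (algebraMap R A) := Subalgebra.inclusion_injective hRA
  have hl : ∀ i j, ent ρ i j ∈ A := fun i j =>
    (le_sup_left : coefAlg ρ ≤ bigAlg ρ σ) (ent_mem ρ i j)
  have hRtop : (⊥ : Ideal R) ≠ ⊤ := bot_ne_top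
  obtain ⟨𝔭, h𝔭⟩ := Ideal.nonempty_minimalPrimes hRtop
  have hp : 𝔭.IsPrime := h𝔭.1.1
  have hex : ∀ i j, ∃ s : R, s ∉ 𝔭 ∧ s.1 * ent ρ i j ∈ R := by
    intro i j
    obtain ⟨s, hs, r, hr⟩ := hRING E R A hinj ⟨_, hl i j⟩ (fun φ ψ hφψ =>
      point_unique hPT ρ σ h1 φ ψ (fun f hf hfR => hφψ ⟨f, hfR⟩) i j (hl i j)) 𝔭 h𝔭
    refine ⟨s, hs, ?_⟩
    have h2 : s.1 * ent ρ i j = r.1 := congrArg Subtype.val hr
    rw [h2]
    exact r.2
  choose s hs hs2 using hex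
  let t : R := ∏ p : Fin n × Fin n, s p.1 p.2
  have ht𝔭 : t ∉ 𝔭 := by
    intro h
    obtain ⟨p, _, hp2⟩ := (Ideal.IsPrime.prod_mem_iff).mp h
    exact hs _ _ hp2
  have htden : t ∈ den ρ σ := by
    intro i j
    have h2 : t = s i j * ∏ p ∈ Finset.univ.erase (i, j), s p.1 p.2 :=
      (Finset.mul_prod_erase Finset.univ (fun p : Fin n × Fin n => s p.1 p.2)
        (Finset.mem_univ (i, j))).symm
    rw [h2]
    have h3 : (s i j * ∏ p ∈ Finset.univ.erase (i, j), s p.1 p.2 : R).1 * ent ρ i j =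
        ((∏ p ∈ Finset.univ.erase (i, j), s p.1 p.2 : R)).1 * ((s i j).1 * ent ρ i j) := by
      show ((s i j).1 * ((∏ p ∈ Finset.univ.erase (i, j), s p.1 p.2 : R)).1) * ent ρ i j = _
      ring
    rw [h3]
    exact (coefAlg σ).mul_mem (Subtype.property _) (hs2 i j)
  have ht0 : t ≠ 0 := by
    intro h
    exact ht𝔭 (h ▸ 𝔭.zero_mem)
  have htop : den ρ σ = ⊤ := by
    by_contra hne
    obtain ⟨φ, hφ⟩ := exists_point (E := E) (den ρ σ) hne
    exact ht0 (hLAM Γ E m σ φ t fun x u hu => hφ _ (den_trans ρ σ t htden x u hu))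
  intro i j
  have h2 : (1 : coefAlg σ) ∈ den ρ σ := htop ▸ Submodule.mem_top
  have h3 := h2 i j
  rwa [show (1 : coefAlg σ).1 * ent ρ i j = ent ρ i j from one_mul _] at h3

end Run7.h930.GO.FIB
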