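import Pool.Agent.Run7.h567.GO.Iface

/-!
# Project GO, piece NEC: eigenvalues of subquotients
-/

set_option autoImplicit false

namespace Run7.h930.GO.NEC

open Run7.h567.GO Matrix Polynomial

theorem t_NEC : S_NEC := by
  intro Γ _ E _ n k ρ τ ⟨U, hU, π, hπ, hc⟩ g
  have hpow : ∀ (l : ℕ) (u : U), ∃ h : (τ g) ^ l *ᵥ u.1 ∈ U,
      π ⟨(τ g) ^ l *ᵥ u.1, h⟩ = (ρ g) ^ l *ᵥ π u := by
    intro l
    induction l with
    | zero =>
      intro u
      simp only [pow_zero, Matrix.one_mulVec]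
      exact ⟨u.2, trivial⟩
    | succ l ih =>
      intro u
      obtain ⟨h, h1⟩ := ih ⟨τ g *ᵥ u.1, hU g u.1 u.2⟩
      simp only [pow_succ, ← Matrix.mulVec_mulVec]
      refine ⟨h, ?_⟩
      rw [h1, hc g u]
  have hpoly : ∀ (p : E[X]) (u : U), ∃ h : aeval (τ g) p *ᵥ u.1 ∈ U,
      π ⟨aeval (τ g) p *ᵥ u.1, h⟩ = aeval (ρ g) p *ᵥ π u := by
    intro p
    induction p using Polynomial.induction_on' with
    | add p q hp hq =>
      intro u
      obtain ⟨h1, h2⟩ := hp u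
      obtain ⟨h3, h4⟩ := hq u
      simp only [map_add, Matrix.add_mulVec]
      refine ⟨U.add_mem h1 h3, ?_⟩
      rw [← h2, ← h4]
      exact map_add π ⟨_, h1⟩ ⟨_, h3⟩
    | monomial l a =>
      intro u
      obtain ⟨h1, h2⟩ := hpow l u
      simp only [aeval_monomial, ← Algebra.smul_def, Matrix.smul_mulVec]
      refine ⟨U.smul_mem a h1, ?_⟩
      rw [← h2]
      exact map_smul π a ⟨_, h1⟩
  have hz : ∀ v : Fin n → E, aeval (ρ g) (τ g).charpoly *ᵥ v = 0 := by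
    intro v
    obtain ⟨u, rfl⟩ := hπ v
    obtain ⟨h1, h2⟩ := hpoly (τ g).charpoly u
    rw [← h2]
    have h3 : (⟨aeval (τ g) (τ g).charpoly *ᵥ u.1, h1⟩ : U) = 0 := by
      apply Subtype.ext
      show aeval (τ g) (τ g).charpoly *ᵥ u.1 = 0
      rw [Matrix.aeval_self_charpoly, Matrix.zero_mulVec]
    rw [h3, map_zero]
  ext i j
  have h1 := congrFun (hz (Pi.single j 1)) i
  rw [Matrix.mulVec_single_one] at h1
  exact h1

end Run7.h930.GO.NEC
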